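import Mathlib
import Pool.Agent.X119.Bern

set_option autoImplicit false

namespace Pool.Agent.Results.MP_57f692_ag.FinitelyGenerated

open Polynomial Finset

/-- `Σ`: finite sums of terms `a h²` with `a ∈ ℚ`, `a ≥ 0` and `h ∈ ℚ[x]`. -/
noncomputable def Sig : AddSubmonoid ℚ[X] := AddSubmonoid.closure {p | ∃ (a : ℚ) (h : ℚ[X]), 0 ≤ a ∧ p = C a * h ^ 2}

/-- The preordering `T_S` generated by a finite set `S` of polynomials. -/
def T (S : Finset ℚ[X]) : Set ℚ[X] :=
  {t | ∃ σ : Finset ℚ[X] → ℚ[X], (∀ E, σ E ∈ Sig) ∧ t = ∑ E ∈ S.powerset, σ E * ∏ g ∈ E, g}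

/-- `Pos(K)`: the rational polynomials that are nonnegative on `K`. -/
def Pos (K : Set ℝ) : Set ℚ[X] := {f | ∀ t ∈ K, 0 ≤ aeval t f}

lemma Sig_mul {p q : ℚ[X]} (hp : p ∈ Sig) (hq : q ∈ Sig) : p * q ∈ Sig := by
  unfold Sig at *
  induction hp using AddSubmonoid.closure_induction with
  | mem p hp =>
    obtain ⟨a, h, ha, rfl⟩ := hp
    induction hq using AddSubmonoid.closure_induction with
    | mem q hq =>
      obtain ⟨b, k, hb, rfl⟩ := hq
      apply AddSubmonoid.subset_closure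
      refine ⟨a * b, h * k, mul_nonneg ha hb, ?_⟩
      rw [C_mul]; ring
    | zero => rw [mul_zero]; exact AddSubmonoid.zero_mem _
    | add x y _ _ hx hy => rw [mul_add]; exact AddSubmonoid.add_mem _ hx hy
  | zero => rw [zero_mul]; exact AddSubmonoid.zero_mem _
  | add x y _ _ hx hy => rw [add_mul]; exact AddSubmonoid.add_mem _ hx hy

lemma Sig_C {a : ℚ} (ha : 0 ≤ a) : C a ∈ Sig :=
  AddSubmonoid.subset_closure ⟨a, 1, ha, by simp⟩

lemma Sig_sq (h : ℚ[X]) : h ^ 2 ∈ Sig :=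
  AddSubmonoid.subset_closure ⟨1, h, zero_le_one, by simp⟩

lemma Sig_nonneg {p : ℚ[X]} (hp : p ∈ Sig) (t : ℝ) : 0 ≤ aeval t p := by
  unfold Sig at hp
  induction hp using AddSubmonoid.closure_induction with
  | mem p hp =>
    obtain ⟨a, h, ha, rfl⟩ := hp
    rw [map_mul, aeval_C, map_pow]
    have : (0:ℝ) ≤ algebraMap ℚ ℝ a := by
      rw [eq_ratCast]; exact_mod_cast ha
    positivity
  | zero => simp
  | add x y _ _ hx hy => rw [map_add]; exact add_nonneg hx hy

lemma T_add {S : Finset ℚ[X]} {p q : ℚ[X]} (hp : p ∈ T S) (hq : q ∈ T S) : p + q ∈ T S := by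
  obtain ⟨σ, hσ, rfl⟩ := hp
  obtain ⟨τ, hτ, rfl⟩ := hq
  refine ⟨fun E => σ E + τ E, fun E => AddSubmonoid.add_mem _ (hσ E) (hτ E), ?_⟩
  rw [← sum_add_distrib]
  exact sum_congr rfl fun E _ => by rw [add_mul]

lemma T_zero (S : Finset ℚ[X]) : 0 ∈ T S :=
  ⟨fun _ => 0, fun _ => AddSubmonoid.zero_mem _, by simp⟩

lemma T_sum {S : Finset ℚ[X]} {ι : Type*} (s : Finset ι) (f : ι → ℚ[X]) (h : ∀ i ∈ s, f i ∈ T S) :
    ∑ i ∈ s, f i ∈ T S := by
  classical
  induction s using Finset.induction_on with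
  | empty => simpa using T_zero S
  | insert a s ha ih =>
    rw [sum_insert ha]
    exact T_add (h a (mem_insert_self _ _)) (ih fun i hi => h i (mem_insert_of_mem hi))

lemma T_term {S : Finset ℚ[X]} {p : ℚ[X]} (hp : p ∈ Sig) (E : Finset ℚ[X]) (hE : E ⊆ S) :
    p * ∏ g ∈ E, g ∈ T S := by
  classical
  refine ⟨fun E' => if E' = E then p else 0, fun E' => ?_, ?_⟩
  · beta_reduce
    split_ifs
    · exact hp
    · exact AddSubmonoid.zero_mem _
  · rw [sum_eq_single E]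
    · beta_reduce
      rw [if_pos rfl]
    · intro b _ hb
      beta_reduce
      rw [if_neg hb, zero_mul]
    · intro h
      exact absurd (mem_powerset.mpr hE) h

lemma T_mul {S : Finset ℚ[X]} {p q : ℚ[X]} (hp : p ∈ T S) (hq : q ∈ T S) : p * q ∈ T S := by
  classical
  obtain ⟨σ, hσ, rfl⟩ := hp
  obtain ⟨τ, hτ, rfl⟩ := hq
  rw [sum_mul_sum]
  apply T_sum
  intro E hE
  apply T_sum
  intro E' hE'
  rw [mem_powerset] at hE hE'
  have h1 : (∏ g ∈ E, g) * ∏ g ∈ E', g = (∏ g ∈ E ∩ E', g) ^ 2 * ∏ g ∈ symmDiff E E', g := by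
    have h2 : (∏ g ∈ E, g) * ∏ g ∈ E', g = (∏ g ∈ E ∪ E', g) * ∏ g ∈ E ∩ E', g :=
      (prod_union_inter (s₁ := E) (s₂ := E') (f := fun g => g)).symm
    have h3 : E ∪ E' = symmDiff E E' ∪ (E ∩ E') := by
      ext x; simp only [mem_union, mem_symmDiff, mem_inter]; tauto
    have h4 : Disjoint (symmDiff E E') (E ∩ E') := by
      rw [Finset.disjoint_left]
      intro x hx hx'
      rw [mem_symmDiff] at hx
      rw [mem_inter] at hx'
      tauto
    rw [h2, h3, prod_union h4]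
    ring
  have h5 : σ E * (∏ g ∈ E, g) * (τ E' * ∏ g ∈ E', g) =
      (σ E * τ E' * (∏ g ∈ E ∩ E', g) ^ 2) * ∏ g ∈ symmDiff E E', g := by
    calc σ E * (∏ g ∈ E, g) * (τ E' * ∏ g ∈ E', g) =
        σ E * τ E' * ((∏ g ∈ E, g) * ∏ g ∈ E', g) := by ring
      _ = _ := by rw [h1]; ring
  rw [h5]
  apply T_term (Sig_mul (Sig_mul (hσ E) (hτ E')) (Sig_sq _))
  intro x hx
  rw [mem_symmDiff] at hx
  rcases hx with h | h
  · exact hE h.1
  · exact hE' h.1

lemma T_sig {S : Finset ℚ[X]} {p : ℚ[X]} (hp : p ∈ Sig) : p ∈ T S := by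
  have := T_term hp ∅ (empty_subset S)
  simpa using this

lemma T_gen {S : Finset ℚ[X]} {g : ℚ[X]} (hg : g ∈ S) : g ∈ T S := by
  have h1 : (1:ℚ[X]) ∈ Sig := by simpa using Sig_C (zero_le_one (α := ℚ))
  have := T_term h1 {g} (by simpa using hg)
  simpa using this

/-- `T_S` as a subsemiring. -/
noncomputable def TS (S : Finset ℚ[X]) : Subsemiring ℚ[X] where
  carrier := T S
  mul_mem' := T_mul
  one_mem' := T_sig (by simpa using Sig_C (zero_le_one (α := ℚ)))
  add_mem' := T_add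
  zero_mem' := T_zero S

lemma T_nonneg {S : Finset ℚ[X]} {K : Set ℝ} (hS : ∀ g ∈ S, ∀ t ∈ K, 0 ≤ aeval t g) {p : ℚ[X]}
    (hp : p ∈ T S) : p ∈ Pos K := by
  obtain ⟨σ, hσ, rfl⟩ := hp
  intro t ht
  rw [map_sum]
  apply sum_nonneg
  intro E hE
  rw [map_mul, map_prod]
  apply mul_nonneg (Sig_nonneg (hσ E) t)
  apply prod_nonneg
  intro g hg
  exact hS g (mem_powerset.mp hE hg) t ht

/-- a polynomial nonnegative on a segment off a finite set is nonnegative on the segment -/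
lemma nonneg_of_off_finite (a b : ℝ) (hab : a < b) (h : ℚ[X]) (F : Set ℝ) (hF : F.Finite)
    (hh : ∀ t ∈ Set.Icc a b, t ∉ F → 0 ≤ aeval t h) : ∀ t ∈ Set.Icc a b, 0 ≤ aeval t h := by
  intro t ht
  by_contra hcon
  push Not at hcon
  have hc : Continuous fun t : ℝ => aeval t h := Polynomial.continuous_aeval h
  have hopen : IsOpen {t : ℝ | aeval t h < 0} := isOpen_lt hc continuous_const
  have hcl : t ∈ closure (Set.Ioo a b) := by rw [closure_Ioo hab.ne]; exact ht
  obtain ⟨t1, ht1, ht1'⟩ := mem_closure_iff.mp hcl _ hopen hcon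
  have hopen2 : IsOpen ({t : ℝ | aeval t h < 0} ∩ Set.Ioo a b) := hopen.inter isOpen_Ioo
  have hinf : ({t : ℝ | aeval t h < 0} ∩ Set.Ioo a b).Infinite :=
    infinite_of_mem_nhds t1 (hopen2.mem_nhds ⟨ht1, ht1'⟩)
  obtain ⟨t2, ht2, ht2'⟩ := hinf.exists_notMem_finite hF
  have := hh t2 (Set.Ioo_subset_Icc_self ht2.2) ht2'
  have := ht2.1
  simp only [Set.mem_setOf_eq] at this
  linarith

lemma finite_roots (p : ℚ[X]) (hp : p ≠ 0) : {t : ℝ | aeval t p = 0}.Finite := by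
  have h : (p.map (algebraMap ℚ ℝ)) ≠ 0 := by
    rwa [Ne, Polynomial.map_eq_zero]
  refine (Polynomial.finite_setOf_isRoot h).subset ?_
  intro t ht
  rw [Set.mem_setOf_eq, IsRoot.def, eval_map_algebraMap]
  exact ht

/-- The general theorem. -/
theorem pos_subset (S : Finset ℚ[X]) (a b : ℝ) (hab : a < b)
    (hS : ∀ g ∈ S, ∀ t ∈ Set.Icc a b, 0 ≤ aeval t g)
    (Ga : ℚ[X]) (hGa : Ga ∈ T S) (hGa0 : 0 < Ga.natDegree) (hGad : ∀ f : ℚ[X], aeval a f = 0 → Ga ∣ f)
    (Gb : ℚ[X]) (hGb : Gb ∈ T S) (hGb0 : 0 < Gb.natDegree) (hGbd : ∀ f : ℚ[X], aeval b f = 0 → Gb ∣ f)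
    (hr : ∀ ε : ℝ, 0 < ε → ∃ r : ℚ, (r:ℝ) ≤ a ∧ a - ε < r ∧ X - C r ∈ T S)
    (hs : ∀ ε : ℝ, 0 < ε → ∃ s : ℚ, b ≤ (s:ℝ) ∧ (s:ℝ) < b + ε ∧ C s - X ∈ T S) :
    Pos (Set.Icc a b) = T S := by
  apply Set.Subset.antisymm _ (fun p hp => T_nonneg hS hp)
  intro f hf
  -- strong induction on the degree
  obtain ⟨n, hn⟩ : ∃ n, f.natDegree = n := ⟨_, rfl⟩
  induction n using Nat.strong_induction_on generalizing f with
  | _ n ih =>
    by_cases hf0 : f = 0
    · rw [hf0]; exact T_zero S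
    -- the division step
    have hdiv : ∀ G h : ℚ[X], f = G * h → G ∈ T S → 0 < G.natDegree → f ∈ T S := by
      intro G h hfG hG hG0
      have hh0 : h ≠ 0 := by rintro rfl; apply hf0; rw [hfG, mul_zero]
      have hGne : G ≠ 0 := by rintro rfl; simp at hG0
      have hdeg : h.natDegree < n := by
        rw [← hn, hfG, natDegree_mul hGne hh0]; omega
      have hhpos : h ∈ Pos (Set.Icc a b) := by
        apply nonneg_of_off_finite a b hab h _ (finite_roots G hGne)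
        intro t ht htG
        have h1 := T_nonneg hS hG t ht
        have h2 := hf t ht
        rw [hfG, map_mul] at h2
        have h3 : 0 < aeval t G := lt_of_le_of_ne h1 (Ne.symm htG)
        exact nonneg_of_mul_nonneg_right h2 h3
      rw [hfG]
      exact T_mul hG (ih _ hdeg hhpos rfl)
    by_cases hz : ∃ c ∈ Set.Icc a b, aeval c f = 0
    · obtain ⟨c, hc, hcf⟩ := hz
      rcases eq_or_lt_of_le hc.1 with hac | hac
      · rw [← hac] at hcf
        obtain ⟨h, hh⟩ := hGad f hcf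
        exact hdiv Ga h hh hGa hGa0
      rcases eq_or_lt_of_le hc.2 with hcb | hcb
      · rw [hcb] at hcf
        obtain ⟨h, hh⟩ := hGbd f hcf
        exact hdiv Gb h hh hGb hGb0
      -- interior root
      have hint : IsIntegral ℚ c := by
        rw [← isAlgebraic_iff_isIntegral]
        exact ⟨f, hf0, hcf⟩
      set p := minpoly ℚ c with hp
      obtain ⟨g, hg⟩ := minpoly.dvd ℚ c hcf
      have hlocmin : IsLocalMin (fun t : ℝ => aeval t f) c := by
        have hmem : Set.Icc a b ∈ nhds c := Icc_mem_nhds hac hcb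
        filter_upwards [hmem] with t ht
        rw [hcf]; exact hf t ht
      have hder : HasDerivAt (fun t : ℝ => aeval t f) (aeval c (derivative f)) c :=
        Polynomial.hasDerivAt_aeval f c
      have hder0 := hlocmin.hasDerivAt_eq_zero hder
      rw [hg, derivative_mul, map_add, map_mul, map_mul, minpoly.aeval, zero_mul, add_zero] at hder0
      have hsep : aeval c (derivative p) ≠ 0 :=
        (minpoly.irreducible hint).separable.aeval_derivative_ne_zero (minpoly.aeval ℚ c)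
      have hgc : aeval c g = 0 := (mul_eq_zero.mp hder0).resolve_left hsep
      obtain ⟨h, hh⟩ := minpoly.dvd ℚ c hgc
      have hfp : f = p ^ 2 * h := by rw [hg, hh]; ring
      refine hdiv (p ^ 2) h hfp (T_sig (Sig_sq p)) ?_
      rw [natDegree_pow]
      have : 0 < p.natDegree := minpoly.natDegree_pos hint
      omega
    · push Not at hz
      have hpos : ∀ t ∈ Set.Icc a b, 0 < aeval t f := fun t ht =>
        lt_of_le_of_ne (hf t ht) (Ne.symm (hz t ht))
      have hc : Continuous fun t : ℝ => aeval t f := Polynomial.continuous_aeval f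
      have hopen : IsOpen {t : ℝ | 0 < aeval t f} := isOpen_lt continuous_const hc
      obtain ⟨ε1, hε1, h1⟩ := Metric.isOpen_iff.mp hopen a (hpos a ⟨le_rfl, hab.le⟩)
      obtain ⟨ε2, hε2, h2⟩ := Metric.isOpen_iff.mp hopen b (hpos b ⟨hab.le, le_rfl⟩)
      obtain ⟨r, hr1, hr2, hr3⟩ := hr ε1 hε1
      obtain ⟨s, hs1, hs2, hs3⟩ := hs ε2 hε2
      have hrs : r < s := by
        have : (r:ℝ) < s := by linarith
        exact_mod_cast this
      refine Pool.Agent.X119.Bern.mem_of_pos (TS S) (fun c hc => T_sig (Sig_C hc)) r s hrs hr3 hs3 f ?_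
      intro t ht1 ht2
      rcases lt_or_ge t a with hta | hta
      · apply h1
        rw [Metric.mem_ball, Real.dist_eq, abs_lt]
        constructor <;> linarith
      rcases lt_or_ge b t with htb | htb
      · apply h2
        rw [Metric.mem_ball, Real.dist_eq, abs_lt]
        constructor <;> linarith
      exact hpos t ⟨hta, htb⟩

/-! ### Irreducibility -/

lemma eis (n p : ℕ) (hn : 0 < n) (hp : p.Prime) : Irreducible (X ^ n - C (p:ℚ) : ℚ[X]) := by
  have hZ : Irreducible (X ^ n - C (p:ℤ) : ℤ[X]) := by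
    have hmonic : (X ^ n - C (p:ℤ) : ℤ[X]).Monic := monic_X_pow_sub_C _ hn.ne'
    have hpp : Prime (p:ℤ) := Nat.prime_iff_prime_int.mp hp
    apply irreducible_of_eisenstein_criterion (P := Ideal.span {(p:ℤ)})
    · rwa [Ideal.span_singleton_prime hpp.ne_zero]
    · rw [hmonic.leadingCoeff, Ideal.mem_span_singleton]
      exact fun h => hpp.not_unit (isUnit_of_dvd_one h)
    · intro k hk
      rw [degree_X_pow_sub_C hn] at hk
      have hk' : k < n := by exact_mod_cast hk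
      rw [coeff_sub, coeff_X_pow, if_neg (by omega), coeff_C, Ideal.mem_span_singleton]
      split_ifs
      · simp
      · simp
    · rw [degree_X_pow_sub_C hn]; exact_mod_cast hn
    · rw [coeff_sub, coeff_X_pow, if_neg (by omega), coeff_C_zero, zero_sub,
        Ideal.span_singleton_pow, Ideal.mem_span_singleton, dvd_neg]
      intro h
      obtain ⟨k, hk⟩ := h
      have hp0 : (p:ℤ) ≠ 0 := hpp.ne_zero
      have : (1:ℤ) = p * k := by
        apply mul_left_cancel₀ hp0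
        linear_combination hk
      exact hpp.not_unit (isUnit_of_dvd_one ⟨k, this⟩)
    · exact hmonic.isPrimitive
  have hmonic : (X ^ n - C (p:ℤ) : ℤ[X]).Monic := monic_X_pow_sub_C _ hn.ne'
  have := (IsPrimitive.Int.irreducible_iff_irreducible_map_cast hmonic.isPrimitive).mp hZ
  simpa using this

lemma dvd_of_root (n p : ℕ) (hn : 0 < n) (hp : p.Prime) (c : ℝ) (hc : c ^ n = p) (f : ℚ[X])
    (hf : aeval c f = 0) : (X ^ n - C (p:ℚ) : ℚ[X]) ∣ f := by
  have h := minpoly.eq_of_irreducible_of_monic (eis n p hn hp) (x := c)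
    (by simp [hc]) (monic_X_pow_sub_C _ hn.ne')
  rw [h]
  exact minpoly.dvd ℚ c hf

lemma exists_rat_near (c : ℝ) (hc : 0 < c) (F : ℝ → ℝ) (hF : ContinuousAt F c) (ε : ℝ) (hε : 0 < ε) :
    ∃ q : ℚ, 0 < q ∧ F q < F c + ε := by
  have h1 : ∀ᶠ t in nhds c, F t < F c + ε := hF.eventually (gt_mem_nhds (by linarith))
  have h2 : ∀ᶠ t in nhds c, 0 < t := lt_mem_nhds hc
  obtain ⟨U, hU1, hU2, hU3⟩ := mem_nhds_iff.mp (h1.and h2)
  obtain ⟨q, hq⟩ := Rat.denseRange_cast.exists_mem_open hU2 ⟨c, hU3⟩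
  have := hU1 hq
  exact ⟨q, by exact_mod_cast this.2, this.1⟩

/-! ### The three sets -/

/-- generators for `K₁` -/
noncomputable def S1 : Finset ℚ[X] := {X, 2 - X ^ 3}
/-- generators for `K₂` -/
noncomputable def S2 : Finset ℚ[X] := {X, X ^ 2 - 2, 3 - X ^ 2}
/-- generators for `K₃` -/
noncomputable def S3 : Finset ℚ[X] := {2 - X ^ 4}

lemma C_mem (S : Finset ℚ[X]) {a : ℚ} (ha : 0 ≤ a) : C a ∈ T S := T_sig (Sig_C ha)

lemma sq_mem (S : Finset ℚ[X]) (h : ℚ[X]) : h ^ 2 ∈ T S := T_sig (Sig_sq h)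

lemma natDegree_aux (n : ℕ) (hn : 0 < n) (a : ℚ) : 0 < (C a - X ^ n : ℚ[X]).natDegree := by
  have : (C a - X ^ n : ℚ[X]) = -(X ^ n - C a) := by ring
  rw [this, natDegree_neg, natDegree_X_pow_sub_C]; exact hn

lemma K1_eq (c : ℝ) (hc : 0 < c) (hc3 : c ^ 3 = 2) : Pos (Set.Icc 0 c) = T S1 := by
  have hX : (X : ℚ[X]) ∈ T S1 := T_gen (by simp [S1])
  have hG : (2 - X ^ 3 : ℚ[X]) ∈ T S1 := T_gen (by simp [S1])
  have e2 : (2 : ℚ[X]) = C 2 := (map_ofNat C 2).symm
  have hS : ∀ g ∈ S1, ∀ t ∈ Set.Icc (0:ℝ) c, 0 ≤ aeval t g := by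
    intro g hg t ht
    simp only [S1, mem_insert, mem_singleton] at hg
    rcases hg with rfl | rfl
    · rw [aeval_X]; exact ht.1
    · rw [map_sub, map_pow, aeval_X, e2, aeval_C]
      have : t ^ 3 ≤ c ^ 3 := pow_le_pow_left₀ ht.1 ht.2 3
      have e : (algebraMap ℚ ℝ) 2 = 2 := by simp
      rw [e]; linarith
  apply pos_subset S1 0 c hc hS X hX (by simp) _ (2 - X ^ 3) hG
    (by rw [e2]; exact natDegree_aux 3 (by norm_num) 2) _ _ _
  · intro f hf
    rw [X_dvd_iff]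
    have : aeval (0:ℝ) f = (algebraMap ℚ ℝ) (f.coeff 0) := by
      rw [aeval_def, eval₂_at_zero] 
    rw [this] at hf
    exact (map_eq_zero _).mp hf
  · intro f hf
    have h := dvd_of_root 3 2 (by norm_num) Nat.prime_two c (by rw [hc3]; norm_num) f hf
    have e : (2 - X ^ 3 : ℚ[X]) = -(X ^ 3 - C ((2:ℕ):ℚ)) := by
      push_cast; rw [e2]; ring
    rw [e, neg_dvd]; exact h
  · intro ε hε
    refine ⟨0, by simp, by simp; linarith, ?_⟩
    simpa using hX
  · intro ε hε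
    obtain ⟨q, hq, hq2⟩ := exists_rat_near c hc (fun t => (2 + 2 * t ^ 3) / (3 * t ^ 2))
      (by
        apply ContinuousAt.div
        · fun_prop
        · fun_prop
        · positivity) ε hε
    set s : ℚ := (2 + 2 * q ^ 3) / (3 * q ^ 2) with hs
    have hFc : (2 + 2 * c ^ 3) / (3 * c ^ 2) = c := by
      rw [div_eq_iff (by positivity)]; nlinarith
    have hmem : C s - X ∈ T S1 := by
      have h1 : (X - C q) ^ 2 * (X + C (2 * q)) + (2 - X ^ 3) ∈ T S1 :=
        T_add (T_mul (sq_mem _ _) (T_add hX (C_mem _ (by positivity)))) hG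
      have h2 : C s - X = C (1 / (3 * q ^ 2)) *
          ((X - C q) ^ 2 * (X + C (2 * q)) + (2 - X ^ 3)) := by
        have h3 : C (3 * q ^ 2) * (C s - X) = (X - C q) ^ 2 * (X + C (2 * q)) + (2 - X ^ 3) := by
          have h4 : (3 * q ^ 2) * s = 2 + 2 * q ^ 3 := by rw [hs]; field_simp
          rw [mul_sub, ← C_mul, h4]
          simp only [C_add, C_mul, C_pow, map_ofNat]
          ring
        rw [← h3, ← mul_assoc, ← C_mul, one_div, inv_mul_cancel₀ (by positivity), C_1, one_mul]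
      rw [h2]
      exact T_mul (C_mem _ (by positivity)) h1
    refine ⟨s, ?_, ?_, hmem⟩
    · have := T_nonneg hS hmem c ⟨hc.le, le_rfl⟩
      rw [map_sub, aeval_C, aeval_X, eq_ratCast] at this
      linarith
    · beta_reduce at hq2
      rw [hFc] at hq2
      rw [hs]; push_cast
      exact hq2

/-- the iteration towards `√2` from below -/
def it : ℕ → ℚ
  | 0 => 0
  | n + 1 => (2 * it n + 2) / (it n + 2)

lemma it_prop (n : ℕ) : 0 ≤ it n ∧ 0 ≤ 2 - it n ^ 2 ∧ 2 - it n ^ 2 ≤ 2 * (1/2) ^ n := by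
  induction n with
  | zero => simp [it]
  | succ n ih =>
    obtain ⟨h0, h1, h2⟩ := ih
    have hp : 0 < it n + 2 := by linarith
    have e : 2 - it (n+1) ^ 2 = (2 - it n ^ 2) * (2 / (it n + 2) ^ 2) := by
      rw [it]; field_simp; ring
    have h3 : 2 / (it n + 2) ^ 2 ≤ 1 / 2 := by
      rw [div_le_div_iff₀ (by positivity) (by norm_num)]; nlinarith
    refine ⟨?_, ?_, ?_⟩
    · rw [it]; positivity
    · rw [e]; positivity
    · rw [e]
      calc (2 - it n ^ 2) * (2 / (it n + 2) ^ 2) ≤ (2 - it n ^ 2) * (1/2) :=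
            mul_le_mul_of_nonneg_left h3 h1
        _ ≤ (2 * (1/2) ^ n) * (1/2) := by linarith
        _ = 2 * (1/2) ^ (n + 1) := by rw [pow_succ (1/2 : ℚ) n]; ring

lemma K2_eq (a b : ℝ) (ha : 0 < a) (hb : 0 < b) (ha2 : a ^ 2 = 2) (hb2 : b ^ 2 = 3) :
    Pos (Set.Icc a b) = T S2 := by
  have hX : (X : ℚ[X]) ∈ T S2 := T_gen (by simp [S2])
  have hG : (X ^ 2 - 2 : ℚ[X]) ∈ T S2 := T_gen (by simp [S2])
  have hH : (3 - X ^ 2 : ℚ[X]) ∈ T S2 := T_gen (by simp [S2])
  have e2 : (2 : ℚ[X]) = C 2 := (map_ofNat C 2).symm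
  have e3 : (3 : ℚ[X]) = C 3 := (map_ofNat C 3).symm
  have hab : a < b := by nlinarith
  have hS : ∀ g ∈ S2, ∀ t ∈ Set.Icc a b, 0 ≤ aeval t g := by
    intro g hg t ht
    simp only [S2, mem_insert, mem_singleton] at hg
    have ht0 : 0 ≤ t := ha.le.trans ht.1
    rcases hg with rfl | rfl | rfl
    · rw [aeval_X]; exact ht0
    · rw [map_sub, map_pow, aeval_X, e2, aeval_C]
      have : a ^ 2 ≤ t ^ 2 := pow_le_pow_left₀ ha.le ht.1 2
      have e : (algebraMap ℚ ℝ) 2 = 2 := by simp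
      rw [e]; linarith
    · rw [map_sub, map_pow, aeval_X, e3, aeval_C]
      have : t ^ 2 ≤ b ^ 2 := pow_le_pow_left₀ ht0 ht.2 2
      have e : (algebraMap ℚ ℝ) 3 = 3 := by simp
      rw [e]; linarith
  have hup : ∀ s : ℚ, 0 < s → 3 ≤ s ^ 2 → C s - X ∈ T S2 := by
    intro s hs hs2
    have h1 : (C s - X) ^ 2 + C (s ^ 2 - 3) + (3 - X ^ 2) ∈ T S2 :=
      T_add (T_add (sq_mem _ _) (C_mem _ (by linarith))) hH
    have h2 : C s - X = C (1 / (2 * s)) * ((C s - X) ^ 2 + C (s ^ 2 - 3) + (3 - X ^ 2)) := by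
      have h3 : C (2 * s) * (C s - X) = (C s - X) ^ 2 + C (s ^ 2 - 3) + (3 - X ^ 2) := by
        simp only [C_sub, C_mul, C_pow, map_ofNat]
        ring
      rw [← h3, ← mul_assoc, ← C_mul, one_div, inv_mul_cancel₀ (by positivity), C_1, one_mul]
    rw [h2]
    exact T_mul (C_mem _ (by positivity)) h1
  have hlow : ∀ n, X - C (it n) ∈ T S2 := by
    intro n
    induction n with
    | zero => simpa [it] using hX
    | succ n ih =>
      have h0 := (it_prop n).1
      have hp : (0:ℚ) < it n + 2 := by linarith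
      have h1 : (X - C (it n)) * (C 2 - X) + (X ^ 2 - 2) ∈ T S2 :=
        T_add (T_mul ih (hup 2 (by norm_num) (by norm_num))) hG
      have h2 : X - C (it (n+1)) = C (1 / (it n + 2)) *
          ((X - C (it n)) * (C 2 - X) + (X ^ 2 - 2)) := by
        have h3 : C (it n + 2) * (X - C (it (n+1))) =
            (X - C (it n)) * (C 2 - X) + (X ^ 2 - 2) := by
          have h4 : (it n + 2) * it (n + 1) = 2 * it n + 2 := by
            rw [it]; field_simp
          rw [mul_sub, ← C_mul, h4]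
          simp only [C_add, C_mul, map_ofNat]
          ring
        rw [← h3, ← mul_assoc, ← C_mul, one_div, inv_mul_cancel₀ hp.ne', C_1, one_mul]
      rw [h2]
      exact T_mul (C_mem _ (by positivity)) h1
  apply pos_subset S2 a b hab hS (X ^ 2 - 2) hG
    (by rw [e2, natDegree_X_pow_sub_C]; norm_num) _ (3 - X ^ 2) hH
    (by rw [e3]; exact natDegree_aux 2 (by norm_num) 3) _ _ _
  · intro f hf
    have h := dvd_of_root 2 2 (by norm_num) Nat.prime_two a (by rw [ha2]; norm_num) f hf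
    have e : (X ^ 2 - 2 : ℚ[X]) = (X ^ 2 - C ((2:ℕ):ℚ)) := by
      push_cast; rw [e2]
    rw [e]; exact h
  · intro f hf
    have h := dvd_of_root 2 3 (by norm_num) Nat.prime_three b (by rw [hb2]; norm_num) f hf
    have e : (3 - X ^ 2 : ℚ[X]) = -(X ^ 2 - C ((3:ℕ):ℚ)) := by
      push_cast; rw [e3]; ring
    rw [e, neg_dvd]; exact h
  · intro ε hε
    obtain ⟨n, hn⟩ := exists_pow_lt_of_lt_one (show (0:ℝ) < ε / 2 by positivity)
      (show (1/2 : ℝ) < 1 by norm_num)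
    obtain ⟨h0, h1, h2⟩ := it_prop n
    have h0' : (0:ℝ) ≤ it n := by exact_mod_cast h0
    have h1' : (0:ℝ) ≤ 2 - (it n : ℝ) ^ 2 := by exact_mod_cast h1
    have h2' : 2 - (it n : ℝ) ^ 2 ≤ 2 * (1/2) ^ n := by
      have h5 : (((2 - it n ^ 2 : ℚ)) : ℝ) ≤ ((2 * (1/2) ^ n : ℚ) : ℝ) := Rat.cast_le.mpr h2
      push_cast at h5
      exact h5
    refine ⟨it n, ?_, ?_, hlow n⟩
    · by_contra hcon
      push Not at hcon
      nlinarith
    · have ha1 : 1 < a := by nlinarith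
      by_contra hcon
      push Not at hcon
      nlinarith
  · intro ε hε
    obtain ⟨s, hs1, hs2⟩ := exists_rat_btwn (show b < b + ε by linarith)
    refine ⟨s, hs1.le, hs2, hup s ?_ ?_⟩
    · have : (0:ℝ) < s := by linarith
      exact_mod_cast this
    · have : (3:ℝ) ≤ (s:ℝ) ^ 2 := by nlinarith
      exact_mod_cast this

lemma K3_eq (c : ℝ) (hc : 0 < c) (hc4 : c ^ 4 = 2) : Pos (Set.Icc (-c) c) = T S3 := by
  have hG : (2 - X ^ 4 : ℚ[X]) ∈ T S3 := T_gen (by simp [S3])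
  have e2 : (2 : ℚ[X]) = C 2 := (map_ofNat C 2).symm
  have hS : ∀ g ∈ S3, ∀ t ∈ Set.Icc (-c) c, 0 ≤ aeval t g := by
    intro g hg t ht
    simp only [S3, mem_singleton] at hg
    rw [hg, map_sub, map_pow, aeval_X, e2, aeval_C]
    have h1 : t ^ 2 ≤ c ^ 2 := sq_le_sq' ht.1 ht.2
    have h2 : (t ^ 2) ^ 2 ≤ (c ^ 2) ^ 2 := pow_le_pow_left₀ (sq_nonneg t) h1 2
    have e : (algebraMap ℚ ℝ) 2 = 2 := by simp
    rw [e]; nlinarith
  have hdvd : ∀ r : ℝ, r ^ 4 = 2 → ∀ f : ℚ[X], aeval r f = 0 → (2 - X ^ 4 : ℚ[X]) ∣ f := by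
    intro r hr f hf
    have h := dvd_of_root 4 2 (by norm_num) Nat.prime_two r (by rw [hr]; norm_num) f hf
    have e : (2 - X ^ 4 : ℚ[X]) = -(X ^ 4 - C ((2:ℕ):ℚ)) := by
      push_cast; rw [e2]; ring
    rw [e, neg_dvd]; exact h
  -- linear forms
  have hlin : ∀ ε : ℝ, 0 < ε → ∃ s : ℚ, c ≤ (s:ℝ) ∧ (s:ℝ) < c + ε ∧ C s - X ∈ T S3 ∧
      X + C s ∈ T S3 := by
    intro ε hε
    obtain ⟨q, hq, hq2⟩ := exists_rat_near c hc (fun t => (2 + 3 * t ^ 4) / (4 * t ^ 3))
      (by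
        apply ContinuousAt.div
        · fun_prop
        · fun_prop
        · positivity) ε hε
    set s : ℚ := (2 + 3 * q ^ 4) / (4 * q ^ 3) with hs
    have hFc : (2 + 3 * c ^ 4) / (4 * c ^ 3) = c := by
      rw [div_eq_iff (by positivity)]; nlinarith
    have h4 : (4 * q ^ 3) * s = 2 + 3 * q ^ 4 := by rw [hs]; field_simp
    have hmem : C s - X ∈ T S3 := by
      have h1 : ((X - C q) * (X + C q)) ^ 2 + C (2 * q ^ 2) * (X - C q) ^ 2 + (2 - X ^ 4) ∈ T S3 :=
        T_add (T_add (sq_mem _ _) (T_mul (C_mem _ (by positivity)) (sq_mem _ _))) hG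
      have h2 : C s - X = C (1 / (4 * q ^ 3)) *
          (((X - C q) * (X + C q)) ^ 2 + C (2 * q ^ 2) * (X - C q) ^ 2 + (2 - X ^ 4)) := by
        have h3 : C (4 * q ^ 3) * (C s - X) =
            ((X - C q) * (X + C q)) ^ 2 + C (2 * q ^ 2) * (X - C q) ^ 2 + (2 - X ^ 4) := by
          rw [mul_sub, ← C_mul, h4]
          simp only [C_add, C_mul, C_pow, map_ofNat]
          ring
        rw [← h3, ← mul_assoc, ← C_mul, one_div, inv_mul_cancel₀ (by positivity), C_1, one_mul]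
      rw [h2]
      exact T_mul (C_mem _ (by positivity)) h1
    have hmem2 : X + C s ∈ T S3 := by
      have h1 : ((X - C q) * (X + C q)) ^ 2 + C (2 * q ^ 2) * (X + C q) ^ 2 + (2 - X ^ 4) ∈ T S3 :=
        T_add (T_add (sq_mem _ _) (T_mul (C_mem _ (by positivity)) (sq_mem _ _))) hG
      have h2 : X + C s = C (1 / (4 * q ^ 3)) *
          (((X - C q) * (X + C q)) ^ 2 + C (2 * q ^ 2) * (X + C q) ^ 2 + (2 - X ^ 4)) := by
        have h3 : C (4 * q ^ 3) * (X + C s) =
            ((X - C q) * (X + C q)) ^ 2 + C (2 * q ^ 2) * (X + C q) ^ 2 + (2 - X ^ 4) := by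
          rw [mul_add, ← C_mul, h4]
          simp only [C_add, C_mul, C_pow, map_ofNat]
          ring
        rw [← h3, ← mul_assoc, ← C_mul, one_div, inv_mul_cancel₀ (by positivity), C_1, one_mul]
      rw [h2]
      exact T_mul (C_mem _ (by positivity)) h1
    refine ⟨s, ?_, ?_, hmem, hmem2⟩
    · have := T_nonneg hS hmem c ⟨by linarith, le_rfl⟩
      rw [map_sub, aeval_C, aeval_X, eq_ratCast] at this
      linarith
    · beta_reduce at hq2
      rw [hFc] at hq2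
      rw [hs]; push_cast
      exact hq2
  apply pos_subset S3 (-c) c (by linarith) hS (2 - X ^ 4) hG
    (by rw [e2]; exact natDegree_aux 4 (by norm_num) 2) (hdvd (-c) (by rw [← hc4]; ring))
    (2 - X ^ 4) hG (by rw [e2]; exact natDegree_aux 4 (by norm_num) 2) (hdvd c hc4)
  · intro ε hε
    obtain ⟨s, h1, h2, _, h3⟩ := hlin ε hε
    refine ⟨-s, by push_cast; linarith, by push_cast; linarith, ?_⟩
    rw [C_neg, sub_neg_eq_add]; exact h3
  · intro ε hε
    obtain ⟨s, h1, h2, h3, _⟩ := hlin ε hε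
    exact ⟨s, h1, h2, h3⟩

/-- **Answer to Q1**: `Pos(K_i)` is the finitely generated preordering generated by the natural
generators, for `i = 1, 2, 3`; in particular `x - 1 ∈ T_{x, x²-2, 3-x²}`. -/
theorem result :
    Pos (Set.Icc 0 ((2:ℝ) ^ (1/3 : ℝ))) = T {X, 2 - X ^ 3} ∧
    Pos (Set.Icc (Real.sqrt 2) (Real.sqrt 3)) = T {X, X ^ 2 - 2, 3 - X ^ 2} ∧
    Pos (Set.Icc (-(2:ℝ) ^ (1/4 : ℝ)) ((2:ℝ) ^ (1/4 : ℝ))) = T {2 - X ^ 4} ∧
    (X - 1 : ℚ[X]) ∈ T {X, X ^ 2 - 2, 3 - X ^ 2} := by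
  have h2 := K2_eq (Real.sqrt 2) (Real.sqrt 3) (by positivity) (by positivity)
    (Real.sq_sqrt (by norm_num)) (Real.sq_sqrt (by norm_num))
  refine ⟨?_, h2, ?_, ?_⟩
  · apply K1_eq _ (by positivity)
    rw [← Real.rpow_natCast, ← Real.rpow_mul (by norm_num)]
    norm_num
  · apply K3_eq _ (by positivity)
    rw [← Real.rpow_natCast, ← Real.rpow_mul (by norm_num)]
    norm_num
  · have : (X - 1 : ℚ[X]) ∈ Pos (Set.Icc (Real.sqrt 2) (Real.sqrt 3)) := by
      intro t ht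
      rw [map_sub, aeval_X, map_one]
      have : 1 < Real.sqrt 2 := by
        rw [Real.lt_sqrt (by norm_num)]; norm_num
      linarith [ht.1]
    rw [h2] at this
    exact this

end Pool.Agent.Results.MP_57f692_ag.FinitelyGenerated
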